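import Mathlib

/-!
A Bessel (Turan-Kubilius) inequality for divisibility of the values of a linear form
`α B + β`, `B < A`, by the primes dividing `A`.
-/

set_option autoImplicit false

namespace Pool.Agent.Lib.MP_39b545_nt.Half

open Finset

theorem coprime_of_dvd {α d : ℕ} (hd : 0 < d) (h : α ∣ d - 1) : Nat.Coprime d α := by
  obtain ⟨c, hc⟩ := h
  have h1 : d = α * c + 1 := by omega
  rw [h1]
  simp [Nat.coprime_mul_right_add_left]

/-- the residue `ρ < d` with `d ∣ α ρ + β` -/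
def rho (α β d : ℕ) : ℕ := β * ((d - 1) / α)

theorem rho_spec {α β d : ℕ} (hd : 0 < d) (h : α ∣ d - 1) :
    α * rho α β d + β = d * β := by
  unfold rho
  obtain ⟨c, hc⟩ := h
  rcases Nat.eq_zero_or_pos α with h0 | h0
  · subst h0
    have : d = 1 := by simp at hc; omega
    subst this
    simp
  · rw [hc, Nat.mul_div_cancel_left c h0]
    have h1 : d = α * c + 1 := by omega
    rw [h1]
    ring

theorem rho_lt {α β d : ℕ} (hd : 0 < d) (h : α ∣ d - 1) (hβ : β ≤ α) : rho α β d < d := by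
  unfold rho
  calc β * ((d - 1) / α) ≤ α * ((d - 1) / α) := Nat.mul_le_mul_right _ hβ
    _ = d - 1 := Nat.mul_div_cancel' h
    _ < d := by omega

theorem form_rho {α β d : ℕ} (hd : 0 < d) (h : α ∣ d - 1) (B : ℕ) :
    α * (d * B + rho α β d) + β = d * (α * B + β) := by
  have := rho_spec (β := β) hd h
  calc α * (d * B + rho α β d) + β = α * d * B + (α * rho α β d + β) := by ring
    _ = α * d * B + d * β := by rw [this]
    _ = d * (α * B + β) := by ring

theorem filter_eq {α β d A : ℕ} (hd : 0 < d) (h : α ∣ d - 1) (hβ : β ≤ α) :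
    (range (d * A)).filter (fun B => d ∣ α * B + β) =
      (range A).image (fun B => d * B + rho α β d) := by
  ext B
  simp only [mem_filter, mem_range, mem_image]
  constructor
  · rintro ⟨hB, hdv⟩
    have h1 : d ∣ α * rho α β d + β := by rw [rho_spec hd h]; exact Dvd.intro _ rfl
    have h2 : α * B + β ≡ α * rho α β d + β [MOD d] :=
      ((Nat.modEq_zero_iff_dvd.2 hdv).trans (Nat.modEq_zero_iff_dvd.2 h1).symm)
    have h3 : α * B ≡ α * rho α β d [MOD d] := Nat.ModEq.add_right_cancel' β h2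
    have h4 : B ≡ rho α β d [MOD d] :=
      Nat.ModEq.cancel_left_of_coprime (coprime_of_dvd hd h) h3
    have h5 : B % d = rho α β d := by
      have := h4
      unfold Nat.ModEq at this
      rw [this]
      exact Nat.mod_eq_of_lt (rho_lt hd h hβ)
    refine ⟨B / d, ?_, ?_⟩
    · exact Nat.div_lt_of_lt_mul hB
    · rw [← h5]
      exact Nat.div_add_mod B d
  · rintro ⟨B', hB', rfl⟩
    refine ⟨?_, ?_⟩
    · have := rho_lt (β := β) hd h hβ
      calc d * B' + rho α β d < d * B' + d := by omega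
        _ = d * (B' + 1) := by ring
        _ ≤ d * A := Nat.mul_le_mul_left _ hB'
    · rw [form_rho hd h]
      exact Dvd.intro _ rfl

theorem sum_filter_dvd {α β d A : ℕ} (hd : 0 < d) (h : α ∣ d - 1) (hβ : β ≤ α) (F : ℕ → ℝ) :
    ∑ B ∈ (range (d * A)).filter (fun B => d ∣ α * B + β), F B =
      ∑ B ∈ range A, F (d * B + rho α β d) := by
  rw [filter_eq hd h hβ, sum_image]
  intro x _ y _ hxy
  have h1 : d * x + rho α β d = d * y + rho α β d := hxy
  have h2 : d * x = d * y := by omega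
  exact Nat.eq_of_mul_eq_mul_left hd h2

theorem sum_ind {α β d A : ℕ} (hd : 0 < d) (hA : d ∣ A) (h : α ∣ d - 1) (hβ : β ≤ α) :
    ∑ B ∈ range A, (if d ∣ α * B + β then (1 : ℝ) else 0) = (A : ℝ) / d := by
  obtain ⟨A', rfl⟩ := hA
  rw [← sum_filter, sum_filter_dvd hd h hβ]
  simp only [sum_const, card_range, nsmul_eq_mul, mul_one]
  have : (d : ℝ) ≠ 0 := by exact_mod_cast hd.ne'
  push_cast
  field_simp

/-- centred indicator of divisibility -/
noncomputable def X (α β p B : ℕ) : ℝ := (if p ∣ α * B + β then (1 : ℝ) else 0) - 1 / p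

theorem dvd_pp {α p p' : ℕ} (hp : 0 < p) (hp' : 0 < p') (h : α ∣ p - 1) (h' : α ∣ p' - 1) :
    α ∣ p * p' - 1 := by
  obtain ⟨c, hc⟩ := h
  obtain ⟨c', hc'⟩ := h'
  have h1 : p = α * c + 1 := by omega
  have h2 : p' = α * c' + 1 := by omega
  refine ⟨α * c * c' + c + c', ?_⟩
  rw [h1, h2]
  have : (α * c + 1) * (α * c' + 1) = α * (α * c * c' + c + c') + 1 := by ring
  rw [this]
  rfl

theorem sum_XX {α β A p p' : ℕ} (hβ : β ≤ α) (hp : p.Prime) (hp' : p'.Prime) (hne : p ≠ p')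
    (hA : p ∣ A) (hA' : p' ∣ A) (h : α ∣ p - 1) (h' : α ∣ p' - 1) :
    ∑ B ∈ range A, X α β p B * X α β p' B = 0 := by
  have hcop : Nat.Coprime p p' := (Nat.coprime_primes hp hp').2 hne
  have h1 := sum_ind (β := β) hp.pos hA h hβ
  have h2 := sum_ind (β := β) hp'.pos hA' h' hβ
  have h3 := sum_ind (β := β) (Nat.mul_pos hp.pos hp'.pos) (hcop.mul_dvd_of_dvd_of_dvd hA hA')
    (dvd_pp hp.pos hp'.pos h h') hβ
  have h4 : ∀ B : ℕ, (if p ∣ α * B + β then (1 : ℝ) else 0) *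
      (if p' ∣ α * B + β then (1 : ℝ) else 0) =
      (if p * p' ∣ α * B + β then (1 : ℝ) else 0) := by
    intro B
    by_cases ha : p ∣ α * B + β <;> by_cases hb : p' ∣ α * B + β
    · rw [if_pos ha, if_pos hb, if_pos (hcop.mul_dvd_of_dvd_of_dvd ha hb)]; norm_num
    · rw [if_pos ha, if_neg hb, if_neg (fun hc => hb (dvd_of_mul_left_dvd hc))]; norm_num
    · rw [if_neg ha, if_neg (fun hc => ha (dvd_of_mul_right_dvd hc))]; norm_num
    · rw [if_neg ha, if_neg (fun hc => ha (dvd_of_mul_right_dvd hc))]; norm_num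
  have h5 : ∑ B ∈ range A, X α β p B * X α β p' B =
      ∑ B ∈ range A, (if p * p' ∣ α * B + β then (1 : ℝ) else 0) -
      (1 / p') * ∑ B ∈ range A, (if p ∣ α * B + β then (1 : ℝ) else 0) -
      (1 / p) * ∑ B ∈ range A, (if p' ∣ α * B + β then (1 : ℝ) else 0) +
      ∑ B ∈ range A, (1 / (p : ℝ)) * (1 / (p' : ℝ)) := by
    rw [mul_sum, mul_sum, ← sum_sub_distrib, ← sum_sub_distrib, ← sum_add_distrib]
    refine sum_congr rfl fun B _ => ?_
    rw [← h4 B]
    unfold X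
    ring
  rw [h5, h1, h2, h3]
  have hp0 : (p : ℝ) ≠ 0 := by exact_mod_cast hp.ne_zero
  have hp0' : (p' : ℝ) ≠ 0 := by exact_mod_cast hp'.ne_zero
  simp only [sum_const, card_range, nsmul_eq_mul]
  push_cast
  field_simp
  ring

theorem sum_Xsq {α β A p : ℕ} (hβ : β ≤ α) (hp : p.Prime)
    (hA : p ∣ A) (h : α ∣ p - 1) :
    ∑ B ∈ range A, X α β p B * X α β p B ≤ (A : ℝ) / p := by
  have h1 := sum_ind (β := β) hp.pos hA h hβ
  have h4 : ∀ B : ℕ, (if p ∣ α * B + β then (1 : ℝ) else 0) *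
      (if p ∣ α * B + β then (1 : ℝ) else 0) =
      (if p ∣ α * B + β then (1 : ℝ) else 0) := by
    intro B
    split_ifs <;> norm_num
  have h5 : ∑ B ∈ range A, X α β p B * X α β p B =
      (1 - 2 / p) * ∑ B ∈ range A, (if p ∣ α * B + β then (1 : ℝ) else 0) +
      ∑ B ∈ range A, (1 / (p : ℝ)) * (1 / (p : ℝ)) := by
    rw [mul_sum, ← sum_add_distrib]
    refine sum_congr rfl fun B _ => ?_
    have := h4 B
    unfold X
    linear_combination this
  rw [h5, h1]
  have hp0 : (0 : ℝ) < p := by exact_mod_cast hp.pos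
  simp only [sum_const, card_range, nsmul_eq_mul]
  have : (1 - 2 / (p : ℝ)) * (A / p) + A * (1 / (p : ℝ) * (1 / p)) = A / p - A / (p * p) := by
    field_simp
    ring
  rw [this]
  have : (0 : ℝ) ≤ (A : ℝ) / (p * p) := by positivity
  linarith

/-- deviation of the mean of `F` on the multiples of `p` -/
noncomputable def Dv (α β A : ℕ) (F : ℕ → ℝ) (p : ℕ) : ℝ :=
  ((p : ℝ) / A) * ∑ B ∈ (range A).filter (fun B => p ∣ α * B + β), F B -
    (1 / (A : ℝ)) * ∑ B ∈ range A, F B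

theorem bessel {α β A : ℕ} (hA0 : 0 < A) (hβ : β ≤ α) (Q : Finset ℕ)
    (hQ : ∀ p ∈ Q, p.Prime ∧ p ∣ A ∧ α ∣ p - 1) (F : ℕ → ℝ) (G : ℝ)
    (hF : ∀ B, |F B| ≤ G) :
    ∑ p ∈ Q, (1 / (p : ℝ)) * (Dv α β A F p) ^ 2 ≤ G ^ 2 := by
  have hA : (0 : ℝ) < A := by exact_mod_cast hA0
  obtain ⟨D, hD⟩ : ∃ D : ℕ → ℝ, D = Dv α β A F := ⟨_, rfl⟩
  obtain ⟨S, hS⟩ : ∃ S : ℝ, S = ∑ p ∈ Q, (1 / (p : ℝ)) * (D p) ^ 2 := ⟨_, rfl⟩
  have hS0 : 0 ≤ S := by
    rw [hS]
    exact sum_nonneg fun p _ => by positivity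
  have h1 : ∀ p ∈ Q, ∑ B ∈ range A, F B * X α β p B = A * ((1 / (p : ℝ)) * D p) := by
    intro p hp
    have hp0 : (p : ℝ) ≠ 0 := by exact_mod_cast (hQ p hp).1.ne_zero
    have h2 : ∑ B ∈ range A, F B * X α β p B =
        ∑ B ∈ (range A).filter (fun B => p ∣ α * B + β), F B - (1 / p) * ∑ B ∈ range A, F B := by
      rw [sum_filter, mul_sum, ← sum_sub_distrib]
      refine sum_congr rfl fun B _ => ?_
      unfold X
      split_ifs <;> ring
    rw [h2, hD]
    unfold Dv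
    field_simp
  have h3 : A * S = ∑ B ∈ range A, F B * ∑ p ∈ Q, D p * X α β p B := by
    rw [hS, mul_sum]
    have : ∀ B ∈ range A, F B * ∑ p ∈ Q, D p * X α β p B =
        ∑ p ∈ Q, D p * (F B * X α β p B) := by
      intro B _
      rw [mul_sum]
      exact sum_congr rfl fun p _ => by ring
    rw [sum_congr rfl this, sum_comm]
    refine sum_congr rfl fun p hp => ?_
    rw [← mul_sum, h1 p hp]
    ring
  have h4 : ∑ B ∈ range A, (∑ p ∈ Q, D p * X α β p B) ^ 2 ≤ A * S := by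
    have h5 : ∀ B ∈ range A, (∑ p ∈ Q, D p * X α β p B) ^ 2 =
        ∑ p ∈ Q, ∑ p' ∈ Q, D p * D p' * (X α β p B * X α β p' B) := by
      intro B _
      rw [sq, sum_mul_sum]
      refine sum_congr rfl fun p _ => sum_congr rfl fun p' _ => by ring
    rw [sum_congr rfl h5, sum_comm]
    rw [hS, mul_sum]
    refine sum_le_sum fun p hp => ?_
    rw [sum_comm]
    obtain ⟨hpp, hpA, hpα⟩ := hQ p hp
    rw [← add_sum_erase Q _ hp]
    have h6 : ∑ p' ∈ Q.erase p, ∑ B ∈ range A, D p * D p' * (X α β p B * X α β p' B) = 0 := by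
      refine sum_eq_zero fun p' hp' => ?_
      rw [mem_erase] at hp'
      obtain ⟨hpp', hpA', hpα'⟩ := hQ p' hp'.2
      rw [← mul_sum, sum_XX hβ hpp hpp' (Ne.symm hp'.1) hpA hpA' hpα hpα', mul_zero]
    rw [h6, add_zero, ← mul_sum]
    have h7 := sum_Xsq (β := β) hβ hpp hpA hpα
    calc D p * D p * ∑ B ∈ range A, X α β p B * X α β p B ≤ D p * D p * ((A : ℝ) / p) :=
          mul_le_mul_of_nonneg_left h7 (mul_self_nonneg _)
      _ = A * (1 / p * D p ^ 2) := by ring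
  have h8 : (A * S) ^ 2 ≤ (∑ B ∈ range A, (F B) ^ 2) *
      ∑ B ∈ range A, (∑ p ∈ Q, D p * X α β p B) ^ 2 := by
    rw [h3]
    exact sum_mul_sq_le_sq_mul_sq _ _ _
  have h9 : ∑ B ∈ range A, (F B) ^ 2 ≤ A * G ^ 2 := by
    calc ∑ B ∈ range A, (F B) ^ 2 ≤ ∑ B ∈ range A, G ^ 2 := by
          refine sum_le_sum fun B _ => ?_
          have := hF B
          rw [← sq_abs]
          exact pow_le_pow_left₀ (abs_nonneg _) this 2
      _ = A * G ^ 2 := by simp
  have h10 : (A * S) ^ 2 ≤ (A * G ^ 2) * (A * S) := by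
    refine h8.trans (mul_le_mul h9 h4 (sum_nonneg fun B _ => sq_nonneg _) (by positivity))
  rw [← hD, ← hS]
  by_contra hcon
  push Not at hcon
  have hSpos : 0 < S := lt_of_le_of_lt (sq_nonneg G) hcon
  have h11 : A * S ≤ A * G ^ 2 := by
    have h12 : 0 < A * S := mul_pos hA hSpos
    have : (A * S) * (A * S) ≤ (A * G ^ 2) * (A * S) := by rw [← sq]; exact h10
    exact le_of_mul_le_mul_right this h12
  have := le_of_mul_le_mul_left h11 hA
  linarith

end Pool.Agent.Lib.MP_39b545_nt.Half
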