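import Mathlib
import Pool.Agent.Lib.MP_39b545_nt.Half.Bessel

/-!
The finite lemma: for a function `L` into `ZMod m` with `L (p n) = L n + 1` for the primes of a
large finite set `P`, some point `(A, B)` of a finite box satisfies
`∑ i, g i (L (α i (A t + B) + β i)) < δ`.
-/

set_option autoImplicit false

namespace Pool.Agent.Lib.MP_39b545_nt.Half

open Finset

/-- the summand -/
noncomputable def Fij {m : ℕ} (α β : ℕ → ℕ) (g : ℕ → ZMod m → ℝ) (L : ℕ → ZMod m)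
    (t A i : ℕ) (j : ZMod m) (B : ℕ) : ℝ :=
  g i (L (α i * (A * t + B) + β i) + j)

/-- the mean over the box `B < A`, `A = ∏ Q`, shifted by `j` -/
noncomputable def T {m : ℕ} (k : ℕ) (α β : ℕ → ℕ) (g : ℕ → ZMod m → ℝ) (L : ℕ → ZMod m)
    (t : ℕ) (Q : Finset ℕ) (j : ZMod m) : ℝ :=
  ∑ i ∈ range k, (1 / ((∏ p ∈ Q, p : ℕ) : ℝ)) *
    ∑ B ∈ range (∏ p ∈ Q, p), Fij α β g L t (∏ p ∈ Q, p) i j B

section

variable {m k : ℕ} [NeZero m] {α β : ℕ → ℕ} {g : ℕ → ZMod m → ℝ} {L : ℕ → ZMod m} {t : ℕ}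
  {G : ℝ} {P : Finset ℕ}

theorem T_step (hβ : ∀ i < k, 0 < β i ∧ β i ≤ α i)
    (hP : ∀ p ∈ P, p.Prime ∧ ∀ i < k, α i ∣ p - 1)
    (hL : ∀ p ∈ P, ∀ n : ℕ, 0 < n → L (p * n) = L n + 1)
    (Q : Finset ℕ) (hQ : Q ⊆ P) (p : ℕ) (hp : p ∈ Q) (j : ZMod m) :
    T k α β g L t (Q.erase p) (j + 1) - T k α β g L t Q j =
      ∑ i ∈ range k, Dv (α i) (β i) (∏ p ∈ Q, p) (Fij α β g L t (∏ p ∈ Q, p) i j) p := by
  unfold T
  rw [← sum_sub_distrib]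
  refine sum_congr rfl fun i hi => ?_
  rw [mem_range] at hi
  unfold Dv
  congr 1
  obtain ⟨A', hA'⟩ : ∃ A' : ℕ, A' = ∏ q ∈ Q.erase p, q := ⟨_, rfl⟩
  have hA : ∏ q ∈ Q, q = p * A' := by
    rw [hA', mul_prod_erase Q (fun q => q) hp]
  rw [← hA', hA]
  obtain ⟨hpp, hpα⟩ := hP p (hQ hp)
  rw [sum_filter_dvd hpp.pos (hpα i hi) (hβ i hi).2]
  have hp0 : (p : ℝ) ≠ 0 := by exact_mod_cast hpp.ne_zero
  have hAp : 0 < A' := by
    rw [hA']
    exact prod_pos fun q hq => (hP q (hQ (mem_of_mem_erase hq))).1.pos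
  have hA0 : (A' : ℝ) ≠ 0 := by exact_mod_cast hAp.ne'
  have h1 : ((p : ℝ) / ((p * A' : ℕ) : ℝ)) = 1 / (A' : ℝ) := by
    push_cast
    field_simp
  rw [h1]
  congr 1
  refine sum_congr rfl fun B _ => ?_
  unfold Fij
  congr 1
  have h2 : α i * (p * A' * t + (p * B + rho (α i) (β i) p)) + β i =
      p * (α i * (A' * t + B) + β i) := by
    rw [← form_rho hpp.pos (hpα i hi)]
    ring
  rw [h2, hL p (hQ hp) _ (by have := (hβ i hi).1; omega)]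
  ring

theorem step (hβ : ∀ i < k, 0 < β i ∧ β i ≤ α i)
    (hP : ∀ p ∈ P, p.Prime ∧ ∀ i < k, α i ∣ p - 1)
    (hL : ∀ p ∈ P, ∀ n : ℕ, 0 < n → L (p * n) = L n + 1)
    (hG : ∀ i < k, ∀ x, |g i x| ≤ G) (ε : ℝ) (hε : 0 < ε)
    (Q : Finset ℕ) (hQ : Q ⊆ P)
    (hbig : (k : ℝ) ^ 2 * m * G ^ 2 < ε ^ 2 * ∑ p ∈ Q, (1 / (p : ℝ))) :
    ∃ p ∈ Q, ∀ j : ZMod m,
      |T k α β g L t (Q.erase p) (j + 1) - T k α β g L t Q j| < ε := by
  by_contra hcon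
  push Not at hcon
  obtain ⟨A, hA⟩ : ∃ A : ℕ, A = ∏ p ∈ Q, p := ⟨_, rfl⟩
  have hA0 : 0 < A := by
    rw [hA]
    exact prod_pos fun q hq => (hP q (hQ hq)).1.pos
  have h1 : ∀ i ∈ range k, ∀ j : ZMod m,
      ∑ p ∈ Q, (1 / (p : ℝ)) * (Dv (α i) (β i) A (Fij α β g L t A i j) p) ^ 2 ≤ G ^ 2 := by
    intro i hi j
    rw [mem_range] at hi
    refine bessel hA0 (hβ i hi).2 Q ?_ _ G ?_
    · intro p hp
      obtain ⟨hpp, hpα⟩ := hP p (hQ hp)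
      exact ⟨hpp, by rw [hA]; exact dvd_prod_of_mem (fun q => q) hp, hpα i hi⟩
    · intro B
      exact hG i hi _
  have h2 : ∀ p ∈ Q, ε ^ 2 ≤ ∑ j : ZMod m,
      (k : ℝ) * ∑ i ∈ range k, (Dv (α i) (β i) A (Fij α β g L t A i j) p) ^ 2 := by
    intro p hp
    obtain ⟨j, hj⟩ := hcon p hp
    have h3 := T_step (g := g) (L := L) (t := t) hβ hP hL Q hQ p hp j
    rw [← hA] at h3
    calc ε ^ 2 ≤ |T k α β g L t (Q.erase p) (j + 1) - T k α β g L t Q j| ^ 2 :=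
          pow_le_pow_left₀ hε.le hj 2
      _ = (∑ i ∈ range k, Dv (α i) (β i) A (Fij α β g L t A i j) p) ^ 2 := by
          rw [sq_abs, h3]
      _ ≤ ((range k).card : ℝ) *
          ∑ i ∈ range k, (Dv (α i) (β i) A (Fij α β g L t A i j) p) ^ 2 :=
          sq_sum_le_card_mul_sum_sq
      _ = (k : ℝ) * ∑ i ∈ range k, (Dv (α i) (β i) A (Fij α β g L t A i j) p) ^ 2 := by
          rw [card_range]
      _ ≤ _ := by
          refine single_le_sum (f := fun j : ZMod m => (k : ℝ) * ∑ i ∈ range k,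
            (Dv (α i) (β i) A (Fij α β g L t A i j) p) ^ 2) (fun j _ => ?_) (mem_univ j)
          exact mul_nonneg (Nat.cast_nonneg _) (sum_nonneg fun i _ => sq_nonneg _)
  have h4 : ε ^ 2 * ∑ p ∈ Q, (1 / (p : ℝ)) ≤ (k : ℝ) ^ 2 * m * G ^ 2 := by
    calc ε ^ 2 * ∑ p ∈ Q, (1 / (p : ℝ)) = ∑ p ∈ Q, (1 / (p : ℝ)) * ε ^ 2 := by
          rw [mul_comm, sum_mul]
      _ ≤ ∑ p ∈ Q, (1 / (p : ℝ)) * ∑ j : ZMod m,
          (k : ℝ) * ∑ i ∈ range k, (Dv (α i) (β i) A (Fij α β g L t A i j) p) ^ 2 :=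
          sum_le_sum fun p hp => mul_le_mul_of_nonneg_left (h2 p hp) (by positivity)
      _ = ∑ j : ZMod m, (k : ℝ) * ∑ i ∈ range k, ∑ p ∈ Q,
            (1 / (p : ℝ)) * (Dv (α i) (β i) A (Fij α β g L t A i j) p) ^ 2 := by
          simp_rw [mul_sum]
          rw [sum_comm]
          refine sum_congr rfl fun j _ => ?_
          rw [sum_comm]
          refine sum_congr rfl fun i _ => sum_congr rfl fun p _ => by ring
      _ ≤ ∑ _j : ZMod m, (k : ℝ) * ∑ _i ∈ range k, G ^ 2 := by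
          refine sum_le_sum fun j _ => mul_le_mul_of_nonneg_left ?_ (Nat.cast_nonneg _)
          exact sum_le_sum fun i hi => h1 i hi j
      _ = (k : ℝ) ^ 2 * m * G ^ 2 := by
          simp only [sum_const, card_univ, ZMod.card, card_range, nsmul_eq_mul]
          ring
  linarith

theorem chain (hβ : ∀ i < k, 0 < β i ∧ β i ≤ α i)
    (hP : ∀ p ∈ P, p.Prime ∧ ∀ i < k, α i ∣ p - 1)
    (hL : ∀ p ∈ P, ∀ n : ℕ, 0 < n → L (p * n) = L n + 1)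
    (hG : ∀ i < k, ∀ x, |g i x| ≤ G) (ε δ : ℝ) (hε : 0 < ε)
    (hbig : (k : ℝ) ^ 2 * m * G ^ 2 < ε ^ 2 * (∑ p ∈ P, (1 / (p : ℝ)) - m))
    (hpos : ∀ Q ⊆ P, δ ≤ T k α β g L t Q 0) (l : ℕ) (hl : l ≤ m) :
    ∃ Q ⊆ P, ∑ p ∈ P, (1 / (p : ℝ)) - l ≤ ∑ p ∈ Q, (1 / (p : ℝ)) ∧
      ∀ j : ℕ, j ≤ l → δ - l * ε ≤ T k α β g L t Q (j : ZMod m) := by
  induction l with
  | zero =>
    refine ⟨P, Subset.refl _, by simp, ?_⟩
    intro j hj
    have : j = 0 := by omega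
    subst this
    simpa using hpos P (Subset.refl _)
  | succ l ih =>
    obtain ⟨Q, hQ, hs, hT⟩ := ih (by omega)
    have hlm : ((l : ℕ) : ℝ) ≤ m := by exact_mod_cast (by omega : l ≤ m)
    have hb2 : (k : ℝ) ^ 2 * m * G ^ 2 < ε ^ 2 * ∑ p ∈ Q, (1 / (p : ℝ)) := by
      refine lt_of_lt_of_le hbig (mul_le_mul_of_nonneg_left ?_ (sq_nonneg _))
      linarith
    obtain ⟨p, hp, hj⟩ := step (g := g) (L := L) (t := t) hβ hP hL hG ε hε Q hQ hb2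
    refine ⟨Q.erase p, (erase_subset _ _).trans hQ, ?_, ?_⟩
    · have h1 : ∑ q ∈ Q.erase p, (1 / (q : ℝ)) + 1 / (p : ℝ) = ∑ q ∈ Q, (1 / (q : ℝ)) :=
        sum_erase_add Q (fun q => 1 / (q : ℝ)) hp
      have h2 : (1 : ℝ) / p ≤ 1 := by
        have : (1 : ℝ) ≤ p := by exact_mod_cast (hP p (hQ hp)).1.one_lt.le
        rw [div_le_one (by linarith)]
        exact this
      push_cast
      linarith
    · intro j hjl
      rcases Nat.eq_zero_or_pos j with h0 | h0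
      · subst h0
        have := hpos (Q.erase p) ((erase_subset _ _).trans hQ)
        have h3 : (0 : ℝ) ≤ ((l + 1 : ℕ) : ℝ) * ε := by positivity
        simp only [Nat.cast_zero]
        linarith
      · obtain ⟨j', rfl⟩ : ∃ j', j = j' + 1 := ⟨j - 1, by omega⟩
        have h3 := hT j' (by omega)
        have h4 := (abs_lt.1 (hj (j' : ZMod m))).1
        push_cast
        push_cast at h3
        linarith

theorem sum_T (hg0 : ∀ i < k, ∑ x : ZMod m, g i x = 0) (Q : Finset ℕ) :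
    ∑ j : ZMod m, T k α β g L t Q j = 0 := by
  unfold T
  rw [sum_comm]
  refine sum_eq_zero fun i hi => ?_
  rw [mem_range] at hi
  rw [← mul_sum, sum_comm]
  have : ∀ B ∈ range (∏ p ∈ Q, p), ∑ j : ZMod m, Fij α β g L t (∏ p ∈ Q, p) i j B = 0 := by
    intro B _
    unfold Fij
    rw [← hg0 i hi]
    exact Fintype.sum_equiv (Equiv.addLeft _) _ _ (fun j => rfl)
  rw [sum_congr rfl this]
  simp

theorem exists_box (hβ : ∀ i < k, 0 < β i ∧ β i ≤ α i)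
    (hg0 : ∀ i < k, ∑ x : ZMod m, g i x = 0)
    (hG : ∀ i < k, ∀ x, |g i x| ≤ G) (δ : ℝ) (hδ : 0 < δ)
    (hP : ∀ p ∈ P, p.Prime ∧ ∀ i < k, α i ∣ p - 1)
    (hbig : (k : ℝ) ^ 2 * m * G ^ 2 < (δ / (2 * m)) ^ 2 * (∑ p ∈ P, (1 / (p : ℝ)) - m))
    (hL : ∀ p ∈ P, ∀ n : ℕ, 0 < n → L (p * n) = L n + 1) :
    ∃ Q ⊆ P, ∃ B < ∏ p ∈ Q, p,
      ∑ i ∈ range k, g i (L (α i * ((∏ p ∈ Q, p) * t + B) + β i)) < δ := by
  by_contra hcon
  push Not at hcon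
  have hm : (0 : ℝ) < m := by exact_mod_cast Nat.pos_of_ne_zero (NeZero.ne m)
  have hpos : ∀ Q ⊆ P, δ ≤ T k α β g L t Q 0 := by
    intro Q hQ
    have hA0 : 0 < ∏ p ∈ Q, p := prod_pos fun q hq => (hP q (hQ hq)).1.pos
    have h1 : T k α β g L t Q 0 = (1 / ((∏ p ∈ Q, p : ℕ) : ℝ)) *
        ∑ B ∈ range (∏ p ∈ Q, p),
          ∑ i ∈ range k, g i (L (α i * ((∏ p ∈ Q, p) * t + B) + β i)) := by
      unfold T Fij
      rw [← mul_sum, sum_comm]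
      simp only [add_zero]
    rw [h1]
    have h2 : ((∏ p ∈ Q, p : ℕ) : ℝ) * δ ≤ ∑ B ∈ range (∏ p ∈ Q, p),
          ∑ i ∈ range k, g i (L (α i * ((∏ p ∈ Q, p) * t + B) + β i)) := by
      calc ((∏ p ∈ Q, p : ℕ) : ℝ) * δ = ∑ _B ∈ range (∏ p ∈ Q, p), δ := by
            rw [sum_const, card_range, nsmul_eq_mul]
        _ ≤ _ := sum_le_sum fun B hB => hcon Q hQ B (mem_range.1 hB)
    have hA1 : (0 : ℝ) < ((∏ p ∈ Q, p : ℕ) : ℝ) := by exact_mod_cast hA0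
    rw [one_div, ← div_eq_inv_mul, le_div_iff₀ hA1, mul_comm]
    exact h2
  have hε : 0 < δ / (2 * m) := by positivity
  obtain ⟨Q, hQ, -, hT⟩ := chain (g := g) (L := L) (t := t) hβ hP hL hG (δ / (2 * m)) δ hε
    hbig hpos m le_rfl
  have h0 := sum_T (α := α) (β := β) (L := L) (t := t) hg0 Q
  have h5 : δ - m * (δ / (2 * m)) = δ / 2 := by
    field_simp
    ring
  have h6 : ∀ j : ZMod m, δ / 2 ≤ T k α β g L t Q j := by
    intro j
    have h7 := hT j.val (ZMod.val_lt j).le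
    rw [h5, ZMod.natCast_zmod_val] at h7
    exact h7
  have h8 : (m : ℝ) * (δ / 2) ≤ ∑ j : ZMod m, T k α β g L t Q j := by
    calc (m : ℝ) * (δ / 2) = ∑ _j : ZMod m, δ / 2 := by
          rw [sum_const, card_univ, ZMod.card, nsmul_eq_mul]
      _ ≤ _ := sum_le_sum fun j _ => h6 j
  rw [h0] at h8
  have : 0 < (m : ℝ) * (δ / 2) := by positivity
  linarith

end

end Pool.Agent.Lib.MP_39b545_nt.Half
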