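import Mathlib
import Pool.Agent.Lib.MP_325d88_nt.PNTAP

/-!
Large finite sets of primes congruent to 1 modulo `q` (large sum of reciprocals).
-/

set_option autoImplicit false

namespace Pool.Agent.Lib.MP_39b545_nt.Half

open Finset Filter Topology Pool.Agent.MP_325d88_nt

/-- primes of the residue class 1 mod `q` in `(2^j, 2^(j+1)]` -/
noncomputable def blk (q j : ℕ) : Finset ℕ :=
  primesAP q 1 (2 ^ (j + 1)) \ primesAP q 1 (2 ^ j)

theorem mem_blk {q j p : ℕ} : p ∈ blk q j ↔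
    p.Prime ∧ p ≡ 1 [MOD q] ∧ 2 ^ j < p ∧ p ≤ 2 ^ (j + 1) := by
  unfold blk primesAP
  rw [Finset.mem_sdiff, Finset.mem_filter, Finset.mem_filter, Finset.mem_range, Finset.mem_range]
  constructor
  · rintro ⟨⟨h1, h2, h3⟩, h4⟩
    refine ⟨h2, h3, ?_, by omega⟩
    by_contra hc
    exact h4 ⟨by omega, h2, h3⟩
  · rintro ⟨h1, h2, h3, h4⟩
    exact ⟨⟨by omega, h1, h2⟩, fun h => by omega⟩

theorem blk_lower (q : ℕ) (hq : 0 < q) : ∃ c : ℝ, 0 < c ∧ ∃ J : ℕ, ∀ j : ℕ, J ≤ j →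
    c * (1 / ((j : ℝ) + 1)) ≤ ∑ p ∈ blk q j, (1 / (p : ℝ)) := by
  have h1 := theta_ap q hq 1 (Nat.coprime_one_left q)
  obtain ⟨c, hc⟩ : ∃ c : ℝ, c = 1 / (Nat.totient q : ℝ) := ⟨_, rfl⟩
  have hc0 : 0 < c := by
    rw [hc]
    have : 0 < Nat.totient q := Nat.totient_pos.2 hq
    positivity
  rw [← hc] at h1
  have h2 := (Metric.tendsto_nhds.1 h1) (c / 4) (by positivity)
  obtain ⟨x0, hx0⟩ := eventually_atTop.1 h2
  refine ⟨c / 8, by positivity, x0, fun j hj => ?_⟩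
  have hj2 : x0 ≤ 2 ^ j := hj.trans (Nat.lt_two_pow_self).le
  have hj3 : x0 ≤ 2 ^ (j + 1) := hj2.trans (Nat.pow_le_pow_right (by norm_num) (Nat.le_succ j))
  have h3 := hx0 _ hj2
  have h4 := hx0 _ hj3
  rw [Real.dist_eq, abs_lt] at h3 h4
  push_cast at h3 h4
  have hp : (0 : ℝ) < 2 ^ j := by positivity
  have hp1 : (0 : ℝ) < 2 ^ (j + 1) := by positivity
  have h5 : ∑ p ∈ primesAP q 1 (2 ^ j), Real.log p ≤ (5 * c / 4) * 2 ^ j := by
    have := h3.2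
    have h6 : (∑ p ∈ primesAP q 1 (2 ^ j), Real.log p) / 2 ^ j ≤ 5 * c / 4 := by linarith
    rwa [div_le_iff₀ hp] at h6
  have h7 : (3 * c / 4) * 2 ^ (j + 1) ≤ ∑ p ∈ primesAP q 1 (2 ^ (j + 1)), Real.log p := by
    have := h4.1
    have h6 : 3 * c / 4 ≤ (∑ p ∈ primesAP q 1 (2 ^ (j + 1)), Real.log p) / 2 ^ (j + 1) := by
      linarith
    rwa [le_div_iff₀ hp1] at h6
  have hsub : primesAP q 1 (2 ^ j) ⊆ primesAP q 1 (2 ^ (j + 1)) := by
    unfold primesAP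
    intro p hp
    rw [Finset.mem_filter, Finset.mem_range] at hp ⊢
    refine ⟨?_, hp.2⟩
    have : 2 ^ j ≤ 2 ^ (j + 1) := Nat.pow_le_pow_right (by norm_num) (Nat.le_succ j)
    omega
  have h8 : ∑ p ∈ blk q j, Real.log p = ∑ p ∈ primesAP q 1 (2 ^ (j + 1)), Real.log p -
      ∑ p ∈ primesAP q 1 (2 ^ j), Real.log p := by
    unfold blk
    rw [← sum_sdiff hsub]
    ring
  have h9 : (c / 4) * 2 ^ j ≤ ∑ p ∈ blk q j, Real.log p := by
    rw [h8]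
    have : (3 * c / 4) * (2 : ℝ) ^ (j + 1) = (3 * c / 2) * 2 ^ j := by ring
    linarith
  have h10 : ∀ p ∈ blk q j, Real.log p ≤ ((j : ℝ) + 1) * 2 ^ (j + 1) * (1 / (p : ℝ)) := by
    intro p hpb
    obtain ⟨hpp, -, hlo, hhi⟩ := mem_blk.1 hpb
    have hp0 : (0 : ℝ) < p := by exact_mod_cast hpp.pos
    have hhi' : (p : ℝ) ≤ 2 ^ (j + 1) := by exact_mod_cast hhi
    have h11 : Real.log p ≤ (j : ℝ) + 1 := by
      calc Real.log p ≤ Real.log (2 ^ (j + 1)) := Real.log_le_log hp0 hhi'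
        _ = ((j : ℝ) + 1) * Real.log 2 := by rw [Real.log_pow]; push_cast; ring
        _ ≤ ((j : ℝ) + 1) * 1 := by
            refine mul_le_mul_of_nonneg_left ?_ (by positivity)
            have := Real.log_two_lt_d9
            linarith
        _ = (j : ℝ) + 1 := mul_one _
    have h12 : (1 : ℝ) ≤ 2 ^ (j + 1) * (1 / (p : ℝ)) := by
      rw [mul_one_div, le_div_iff₀ hp0]
      linarith
    calc Real.log p ≤ ((j : ℝ) + 1) * 1 := by linarith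
      _ ≤ ((j : ℝ) + 1) * (2 ^ (j + 1) * (1 / (p : ℝ))) :=
          mul_le_mul_of_nonneg_left h12 (by positivity)
      _ = _ := by ring
  have h13 : (c / 4) * 2 ^ j ≤ ((j : ℝ) + 1) * 2 ^ (j + 1) * ∑ p ∈ blk q j, (1 / (p : ℝ)) := by
    refine h9.trans ?_
    rw [mul_sum]
    exact sum_le_sum h10
  have h14 : ((j : ℝ) + 1) * 2 ^ (j + 1) * ∑ p ∈ blk q j, (1 / (p : ℝ)) =
      (2 * ((j : ℝ) + 1) * ∑ p ∈ blk q j, (1 / (p : ℝ))) * 2 ^ j := by ring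
  rw [h14] at h13
  have h15 := le_of_mul_le_mul_right h13 hp
  have hj0 : (0 : ℝ) < (j : ℝ) + 1 := by positivity
  rw [mul_one_div, div_le_iff₀ hj0]
  linarith

theorem exists_primes (q : ℕ) (hq : 0 < q) (R : ℝ) : ∃ P : Finset ℕ,
    (∀ p ∈ P, p.Prime ∧ q ∣ p - 1) ∧ R < ∑ p ∈ P, (1 / (p : ℝ)) := by
  obtain ⟨c, hc, J, hJ⟩ := blk_lower q hq
  have h1 := Real.tendsto_sum_range_one_div_nat_succ_atTop
  obtain ⟨n, hn, hnJ⟩ := ((h1.eventually_gt_atTop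
    (R / c + ∑ i ∈ range J, (1 / ((i : ℝ) + 1)))).and (eventually_ge_atTop J)).exists
  refine ⟨(Ico J n).biUnion (blk q), ?_, ?_⟩
  · intro p hp
    rw [mem_biUnion] at hp
    obtain ⟨j, -, hj⟩ := hp
    obtain ⟨hpp, hmod, -, -⟩ := mem_blk.1 hj
    refine ⟨hpp, ?_⟩
    exact (Nat.modEq_iff_dvd' hpp.one_lt.le).1 hmod.symm
  · rw [sum_biUnion]
    · have h2 : ∑ j ∈ Ico J n, c * (1 / ((j : ℝ) + 1)) ≤
          ∑ j ∈ Ico J n, ∑ p ∈ blk q j, (1 / (p : ℝ)) :=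
        sum_le_sum fun j hj => hJ j (mem_Ico.1 hj).1
      refine lt_of_lt_of_le ?_ h2
      rw [← mul_sum, ← sub_lt_sub_iff_right (c * ∑ j ∈ Ico J n, (1 / ((j : ℝ) + 1)))]
      have h3 : ∑ j ∈ range J, (1 / ((j : ℝ) + 1)) + ∑ j ∈ Ico J n, (1 / ((j : ℝ) + 1)) =
          ∑ j ∈ range n, (1 / ((j : ℝ) + 1)) := sum_range_add_sum_Ico _ hnJ
      have h4 : R / c < ∑ j ∈ Ico J n, (1 / ((j : ℝ) + 1)) := by linarith
      rw [div_lt_iff₀ hc] at h4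
      linarith
    · intro i _ j _ hij
      rw [Function.onFun, disjoint_left]
      intro p hpi hpj
      obtain ⟨-, -, h3, h4⟩ := mem_blk.1 hpi
      obtain ⟨-, -, h5, h6⟩ := mem_blk.1 hpj
      rcases lt_or_gt_of_ne hij with h | h
      · have : 2 ^ (i + 1) ≤ 2 ^ j := Nat.pow_le_pow_right (by norm_num) h
        omega
      · have : 2 ^ (j + 1) ≤ 2 ^ i := Nat.pow_le_pow_right (by norm_num) h
        omega

end Pool.Agent.Lib.MP_39b545_nt.Half
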