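import Mathlib
import Pool.Agent.Lib.QuadThree.Asym

/-!
Lower bound sieve for a finite family of linear forms `a j * s + 1`.
-/

set_option autoImplicit false

namespace Pool.Agent.Lib.MP_39b545_nt.Half

open Finset Pool.Agent.Lib.QuadParity Pool.Agent.Lib.QuadThree

/-- the bad residues in the block with offset `h` -/
def badl {ι : Type} (J : Finset ι) (a : ι → ℕ) (h q s : ℕ) : Prop :=
  ∃ j ∈ J, q ∣ a j * (h + s) + 1

theorem per_badl {ι : Type} (J : Finset ι) (a : ι → ℕ) (h : ℕ) : Per (badl J a h) := by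
  intro q s
  unfold badl
  have h1 : ∀ j : ι, q ∣ a j * (h + s) + 1 ↔ q ∣ a j * (h + s % q) + 1 := by
    intro j
    have h2 : a j * (h + s) + 1 ≡ a j * (h + s % q) + 1 [MOD q] := by
      refine Nat.ModEq.add_right _ (Nat.ModEq.mul_left _ (Nat.ModEq.add_left _ ?_))
      exact (Nat.mod_modEq s q).symm
    rw [← Nat.modEq_zero_iff_dvd, ← Nat.modEq_zero_iff_dvd]
    exact ⟨fun h3 => h2.symm.trans h3, fun h3 => h2.trans h3⟩
  constructor
  · rintro ⟨j, hj, h2⟩
    exact ⟨j, hj, (h1 j).1 h2⟩
  · rintro ⟨j, hj, h2⟩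
    exact ⟨j, hj, (h1 j).2 h2⟩

theorem nb_badl {ι : Type} (J : Finset ι) (a : ι → ℕ) (h q : ℕ) (hq : q.Prime) :
    nb (badl J a h) q ≤ J.card := by
  classical
  unfold nb
  have h1 : (range q).filter (fun s => badl J a h q s) ⊆
      J.biUnion (fun j => (range q).filter (fun s => q ∣ a j * (h + s) + 1)) := by
    intro s hs
    rw [mem_filter] at hs
    obtain ⟨hs1, j, hj, h2⟩ := hs
    rw [mem_biUnion]
    exact ⟨j, hj, by rw [mem_filter]; exact ⟨hs1, h2⟩⟩
  have h2 := (card_le_card h1).trans card_biUnion_le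
  refine le_trans ?_ (h2.trans ?_)
  · apply le_of_eq
    congr!
  · calc ∑ j ∈ J, ((range q).filter (fun s => q ∣ a j * (h + s) + 1)).card ≤ ∑ _j ∈ J, 1 := by
          refine sum_le_sum fun j _ => ?_
          rw [card_le_one]
          intro s hs s' hs'
          rw [mem_filter, mem_range] at hs hs'
          have hc : Nat.Coprime q (a j) := by
            rw [Nat.Prime.coprime_iff_not_dvd hq]
            intro hd
            have : q ∣ 1 := (Nat.dvd_add_right (Dvd.dvd.mul_right hd _)).1 hs.2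
            exact hq.one_lt.ne' (Nat.dvd_one.1 this)
          have h3 : a j * (h + s) + 1 ≡ a j * (h + s') + 1 [MOD q] :=
            (Nat.modEq_zero_iff_dvd.2 hs.2).trans (Nat.modEq_zero_iff_dvd.2 hs'.2).symm
          have h4 := Nat.ModEq.add_right_cancel' 1 h3
          have h5 := Nat.ModEq.cancel_left_of_coprime hc h4
          have h6 := Nat.ModEq.add_left_cancel' h h5
          exact Nat.ModEq.eq_of_lt_of_lt h6 hs.1 hs'.1
      _ = J.card := by simp

/-- the good values of `s` -/
noncomputable def goodS {ι : Type} (J : Finset ι) (a : ι → ℕ) (Z S : ℕ) : Finset ℕ :=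
  open Classical in (range S).filter (fun s => ∀ j ∈ J, ∀ q : ℕ, q.Prime → q ∣ a j * s + 1 → Z < q)

theorem mem_goodS {ι : Type} {J : Finset ι} {a : ι → ℕ} {Z S s : ℕ} :
    s ∈ goodS J a Z S ↔ s < S ∧ ∀ j ∈ J, ∀ q : ℕ, q.Prime → q ∣ a j * s + 1 → Z < q := by
  classical
  unfold goodS
  rw [mem_filter, mem_range]

theorem sieve_lin {ι : Type} (J : Finset ι) (a : ι → ℕ)
    (ha : ∀ j ∈ J, ∀ q : ℕ, q.Prime → q ≤ J.card → q ∣ a j) :
    ∃ S0 : ℕ, ∀ S : ℕ, S0 ≤ S → ∃ Z : ℕ, 2 ≤ Z ∧ S ≤ Z ^ (16 * J.card + 14) ∧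
      (S : ℝ) ≤ 2 * (Real.log S) ^ (2 * J.card + 1) * ((goodS J a Z S).card : ℝ) := by
  classical
  obtain ⟨D, hD⟩ : ∃ D : ℕ, D = J.card := ⟨_, rfl⟩
  obtain ⟨N0, hN0⟩ := sieve_asym D
  rw [← hD] at ha ⊢
  refine ⟨2 ^ ((8 * D + 7) * 2 ^ N0), fun S hS => ?_⟩
  obtain ⟨e, he⟩ : ∃ e : ℕ, e = 8 * D + 7 := ⟨_, rfl⟩
  have hex : ∃ n : ℕ, S < 2 ^ (e * 2 ^ (n + 1)) := by
    refine ⟨S, ?_⟩
    calc S < 2 ^ S := Nat.lt_two_pow_self
      _ ≤ 2 ^ (e * 2 ^ (S + 1)) := by
          refine Nat.pow_le_pow_right (by norm_num) ?_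
          have h1 : S + 1 < 2 ^ (S + 1) := Nat.lt_two_pow_self
          have h2 : 1 * 2 ^ (S + 1) ≤ e * 2 ^ (S + 1) := Nat.mul_le_mul_right _ (by omega)
          omega
  obtain ⟨n, hn, hmin⟩ : ∃ n : ℕ, S < 2 ^ (e * 2 ^ (n + 1)) ∧
      ∀ m < n, ¬ S < 2 ^ (e * 2 ^ (m + 1)) :=
    ⟨Nat.find hex, Nat.find_spec hex, fun m hm => Nat.find_min hex hm⟩
  have hnN : N0 ≤ n := by
    by_contra hc
    push Not at hc
    have h1 : 2 ^ (e * 2 ^ (n + 1)) ≤ 2 ^ ((8 * D + 7) * 2 ^ N0) := by
      rw [he]
      exact Nat.pow_le_pow_right (by norm_num) (Nat.mul_le_mul_left _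
        (Nat.pow_le_pow_right (by norm_num) hc))
    omega
  have hlow : 2 ^ (e * 2 ^ n) ≤ S := by
    rcases Nat.eq_zero_or_pos n with h0 | h0
    · have h1 : N0 = 0 := by omega
      rw [h0, he]
      rw [h1] at hS
      exact hS
    · have := hmin (n - 1) (by omega)
      rw [Nat.sub_add_cancel h0] at this
      omega
  obtain ⟨X, hX⟩ : ∃ X : ℕ, X = 2 ^ (e * 2 ^ n) := ⟨_, rfl⟩
  have hXpos : 0 < X := by rw [hX]; positivity
  obtain ⟨Z, hZ⟩ : ∃ Z : ℕ, Z = 2 ^ (2 ^ n) := ⟨_, rfl⟩
  refine ⟨Z, ?_, ?_, ?_⟩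
  · rw [hZ]
    calc 2 = 2 ^ 1 := rfl
      _ ≤ 2 ^ (2 ^ n) := Nat.pow_le_pow_right (by norm_num) Nat.one_le_two_pow
  · rw [hZ, ← pow_mul]
    refine hn.le.trans (Nat.pow_le_pow_right (by norm_num) ?_)
    rw [he, pow_succ]
    apply le_of_eq
    ring
  · -- counting over the blocks
    have hbnd := hN0 n hnN
    have hblk : ∀ h : ℕ, (X : ℝ) ≤ 2 ^ ((2 * D + 1) * n) *
        ((sifted D (badl J a (h * X)) n).card : ℝ) := by
      intro h
      have := hbnd (badl J a (h * X)) (per_badl J a _) (fun q hq _ _ => by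
        rw [hD]
        exact nb_badl J a _ q hq)
      have hXr : (X : ℝ) = 2 ^ ((8 * D + 7) * 2 ^ n) := by
        rw [hX, he]
        push_cast
        ring
      rw [hXr]
      exact this
    have hcard : ∑ h ∈ range (S / X), (sifted D (badl J a (h * X)) n).card ≤
        (goodS J a Z S).card := by
      have hinj : ∀ h : ℕ, ((sifted D (badl J a (h * X)) n).image (fun s => h * X + s)).card =
          (sifted D (badl J a (h * X)) n).card := by
        intro h
        exact card_image_of_injective _ (fun x y hxy => Nat.add_left_cancel hxy)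
      calc ∑ h ∈ range (S / X), (sifted D (badl J a (h * X)) n).card =
          ∑ h ∈ range (S / X),
            ((sifted D (badl J a (h * X)) n).image (fun s => h * X + s)).card :=
            sum_congr rfl fun h _ => (hinj h).symm
        _ = ((range (S / X)).biUnion
            (fun h => (sifted D (badl J a (h * X)) n).image (fun s => h * X + s))).card := by
            rw [card_biUnion]
            intro h1 _ h2 _ hne
            rw [Function.onFun, disjoint_left]
            intro x hx1 hx2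
            rw [mem_image] at hx1 hx2
            obtain ⟨s1, hs1, rfl⟩ := hx1
            obtain ⟨s2, hs2, h3⟩ := hx2
            have h4 := (mem_sifted.1 hs1).1
            have h5 := (mem_sifted.1 hs2).1
            rw [← he, ← hX] at h4 h5
            apply hne
            have h6 : (h1 * X + s1) / X = h1 := by
              rw [Nat.add_comm, Nat.add_mul_div_right _ _ hXpos, Nat.div_eq_of_lt h4, zero_add]
            have h7 : (h2 * X + s2) / X = h2 := by
              rw [Nat.add_comm, Nat.add_mul_div_right _ _ hXpos, Nat.div_eq_of_lt h5, zero_add]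
            rw [← h6, ← h7, h3]
        _ ≤ (goodS J a Z S).card := by
            refine card_le_card ?_
            intro x hx
            rw [mem_biUnion] at hx
            obtain ⟨h, hh, hx⟩ := hx
            rw [mem_image] at hx
            obtain ⟨s, hs, rfl⟩ := hx
            obtain ⟨hs1, hs2⟩ := mem_sifted.1 hs
            rw [← he, ← hX] at hs1
            rw [mem_goodS]
            constructor
            · rw [mem_range] at hh
              calc h * X + s < h * X + X := by omega
                _ = (h + 1) * X := by ring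
                _ ≤ (S / X) * X := Nat.mul_le_mul_right _ hh
                _ ≤ S := Nat.div_mul_le_self S X
            · intro j hj q hq hdv
              by_contra hc
              push Not at hc
              rcases Nat.lt_or_ge D q with h3 | h3
              · exact hs2 q hq h3 (by rw [← hZ]; exact hc) ⟨j, hj, hdv⟩
              · have h4 := ha j hj q hq h3
                have : q ∣ 1 := (Nat.dvd_add_right (Dvd.dvd.mul_right h4 _)).1 hdv
                exact hq.one_lt.ne' (Nat.dvd_one.1 this)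
    have h1 : ((S / X : ℕ) : ℝ) * X ≤ 2 ^ ((2 * D + 1) * n) * ((goodS J a Z S).card : ℝ) := by
      calc ((S / X : ℕ) : ℝ) * X = ∑ _h ∈ range (S / X), (X : ℝ) := by simp
        _ ≤ ∑ h ∈ range (S / X), 2 ^ ((2 * D + 1) * n) *
            ((sifted D (badl J a (h * X)) n).card : ℝ) := sum_le_sum fun h _ => hblk h
        _ = 2 ^ ((2 * D + 1) * n) *
            ((∑ h ∈ range (S / X), (sifted D (badl J a (h * X)) n).card : ℕ) : ℝ) := by
            rw [← mul_sum]
            push_cast
            rfl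
        _ ≤ 2 ^ ((2 * D + 1) * n) * ((goodS J a Z S).card : ℝ) := by
            refine mul_le_mul_of_nonneg_left ?_ (by positivity)
            exact_mod_cast hcard
    have h2 : (S : ℝ) ≤ 2 * (((S / X : ℕ) : ℝ) * X) := by
      have h3 : X ≤ S := by rw [hX]; exact hlow
      have h4 : S < (S / X) * X + X := by
        have := Nat.lt_div_mul_add hXpos (a := S)
        exact this
      have h5 : 1 ≤ S / X := (Nat.one_le_div_iff hXpos).2 h3
      have h6 : X ≤ (S / X) * X := by nlinarith
      have h7 : S ≤ 2 * ((S / X) * X) := by omega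
      exact_mod_cast h7
    have hS1 : (1 : ℝ) ≤ S := by
      have : 1 ≤ S := le_trans Nat.one_le_two_pow hlow
      exact_mod_cast this
    have h8 : (2 : ℝ) ^ n ≤ Real.log S := by
      have h9 : Real.log ((2 : ℝ) ^ (e * 2 ^ n)) ≤ Real.log S := by
        refine Real.log_le_log (by positivity) ?_
        exact_mod_cast hlow
      rw [Real.log_pow] at h9
      push_cast at h9
      have h10 : (7 : ℝ) ≤ e := by
        rw [he]
        push_cast
        have : (0 : ℝ) ≤ D := Nat.cast_nonneg _
        linarith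
      have h11 := Real.log_two_gt_d9
      have h12 : (1 : ℝ) ≤ e * Real.log 2 := by nlinarith
      have h13 : (0 : ℝ) < 2 ^ n := by positivity
      calc (2 : ℝ) ^ n = 1 * 2 ^ n := (one_mul _).symm
        _ ≤ (e * Real.log 2) * 2 ^ n := mul_le_mul_of_nonneg_right h12 h13.le
        _ = e * 2 ^ n * Real.log 2 := by ring
        _ ≤ Real.log S := h9
    have h14 : (2 : ℝ) ^ ((2 * D + 1) * n) ≤ (Real.log S) ^ (2 * D + 1) := by
      rw [mul_comm, pow_mul]
      exact pow_le_pow_left₀ (by positivity) h8 _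
    calc (S : ℝ) ≤ 2 * (((S / X : ℕ) : ℝ) * X) := h2
      _ ≤ 2 * (2 ^ ((2 * D + 1) * n) * ((goodS J a Z S).card : ℝ)) := by linarith
      _ ≤ 2 * ((Real.log S) ^ (2 * D + 1) * ((goodS J a Z S).card : ℝ)) := by
          refine mul_le_mul_of_nonneg_left ?_ (by norm_num)
          exact mul_le_mul_of_nonneg_right h14 (Nat.cast_nonneg _)
      _ = _ := by ring

end Pool.Agent.Lib.MP_39b545_nt.Half
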