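import Mathlib
import Pool.Agent.Lib.MP_39b545_nt.Half.Finite
import Pool.Agent.Lib.MP_39b545_nt.Half.PrimesAP
import Pool.Agent.Lib.MP_39b545_nt.Half.SieveLin

/-!
Auxiliary facts for the assembly: the residue class of `n - 1`, the gap of the values, the number
of prime factors of an integer without small prime factors.
-/

set_option autoImplicit false

namespace Pool.Agent.Lib.MP_39b545_nt.Half

open Finset

/-- a residue class `m0 mod h`: the terms `2^i x + 1`, `i < k`, have no prime factor `≤ y`, the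
term `2^k x + 1` is divisible by a fixed prime `r0`. -/
theorem residue_class (k y : ℕ) : ∃ h m0 r0 : ℕ, m0 < h ∧ r0.Prime ∧ r0 ≤ h ∧
    (∀ x : ℕ, x ≡ m0 [MOD h] → (∀ i < k, ∀ p : ℕ, p.Prime → p ∣ 2 ^ i * x + 1 → y < p) ∧
      r0 ∣ 2 ^ k * x + 1) := by
  obtain ⟨r0, hr0, hr0p⟩ := Nat.exists_infinite_primes (2 ^ k + 2)
  have h2k : 1 ≤ 2 ^ k := Nat.one_le_two_pow
  have hodd : r0 % 2 = 1 := by
    rcases hr0p.eq_two_or_odd with h | h
    · omega
    · exact h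
  obtain ⟨y', hy'⟩ : ∃ y' : ℕ, y' = max y r0 := ⟨_, rfl⟩
  obtain ⟨h0, hh0⟩ : ∃ h0 : ℕ, h0 = ∏ p ∈ (range (y' + 1)).filter (fun p => p.Prime ∧ p ≠ r0), p :=
    ⟨_, rfl⟩
  have hcop : Nat.Coprime h0 r0 := by
    rw [hh0]
    refine Nat.Coprime.prod_left fun p hp => ?_
    rw [mem_filter] at hp
    exact (Nat.coprime_primes hp.2.1 hr0p).2 hp.2.2
  have hh0pos : 0 < h0 := by
    rw [hh0]
    refine prod_pos fun p hp => ?_
    rw [mem_filter] at hp
    exact hp.2.1.pos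
  obtain ⟨b, hb⟩ : ∃ b : ℕ, b = (r0 - 1) * ((r0 + 1) / 2) ^ k := ⟨_, rfl⟩
  have hb1 : r0 ∣ 2 ^ k * b + 1 := by
    have h3 : 2 * ((r0 + 1) / 2) = r0 + 1 := by omega
    have h4 : 2 ^ k * b = (r0 - 1) * (r0 + 1) ^ k := by
      rw [hb]
      calc 2 ^ k * ((r0 - 1) * ((r0 + 1) / 2) ^ k) = (r0 - 1) * (2 * ((r0 + 1) / 2)) ^ k := by
            rw [mul_pow]; ring
        _ = _ := by rw [h3]
    rw [h4, ← Nat.modEq_zero_iff_dvd]
    have h5 : (r0 - 1) * (r0 + 1) ^ k + 1 ≡ (r0 - 1) * 1 ^ k + 1 [MOD r0] := by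
      refine Nat.ModEq.add_right _ (Nat.ModEq.mul_left _ (Nat.ModEq.pow _ ?_))
      unfold Nat.ModEq
      simp
    refine h5.trans ?_
    rw [one_pow, mul_one, Nat.sub_add_cancel hr0p.one_lt.le, Nat.modEq_zero_iff_dvd]
  obtain ⟨m0, hm0, hm1⟩ := Nat.chineseRemainder hcop 0 b
  have hlt : m0 % (h0 * r0) < h0 * r0 := Nat.mod_lt _ (Nat.mul_pos hh0pos hr0p.pos)
  refine ⟨h0 * r0, m0 % (h0 * r0), r0, hlt, hr0p, Nat.le_mul_of_pos_left _ hh0pos, ?_⟩
  intro x hx
  have hx' : x ≡ m0 [MOD h0 * r0] := hx.trans (Nat.mod_modEq _ _)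
  have hxh : x ≡ 0 [MOD h0] := (hx'.of_mul_right r0).trans hm0
  have hxr : x ≡ b [MOD r0] := (hx'.of_mul_left h0).trans hm1
  have hk : r0 ∣ 2 ^ k * x + 1 := by
    rw [← Nat.modEq_zero_iff_dvd] at hb1 ⊢
    exact (Nat.ModEq.add_right _ (Nat.ModEq.mul_left _ hxr)).trans hb1
  refine ⟨fun i hi p hp hdv => ?_, hk⟩
  by_contra hc
  push Not at hc
  by_cases hpr : p = r0
  · subst hpr
    have h6 : 2 ^ k * x + 1 + (2 ^ (k - i) - 1) = 2 ^ (k - i) * (2 ^ i * x + 1) := by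
      have h7 : 1 ≤ 2 ^ (k - i) := Nat.one_le_two_pow
      have h8 : 2 ^ k = 2 ^ (k - i) * 2 ^ i := by
        rw [← pow_add, Nat.sub_add_cancel hi.le]
      rw [h8]
      have : 2 ^ (k - i) * (2 ^ i * x + 1) = 2 ^ (k - i) * 2 ^ i * x + 2 ^ (k - i) := by ring
      rw [this]
      omega
    have h9 : p ∣ 2 ^ (k - i) - 1 := by
      have h10 : p ∣ 2 ^ k * x + 1 + (2 ^ (k - i) - 1) := by
        rw [h6]
        exact Dvd.dvd.mul_left hdv _
      exact (Nat.dvd_add_right hk).1 h10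
    have h11 : 2 ^ (k - i) ≤ 2 ^ k := Nat.pow_le_pow_right (by norm_num) (Nat.sub_le _ _)
    have h12 : 2 ^ 1 ≤ 2 ^ (k - i) := Nat.pow_le_pow_right (by norm_num) (by omega)
    have h13 := Nat.le_of_dvd (by omega) h9
    omega
  · have h14 : p ∣ h0 := by
      rw [hh0]
      refine dvd_prod_of_mem (fun p => p) ?_
      rw [mem_filter, mem_range]
      refine ⟨?_, hp, hpr⟩
      have : y ≤ y' := by rw [hy']; exact le_max_left _ _
      omega
    have h15 : p ∣ x := h14.trans ((Nat.modEq_zero_iff_dvd).1 hxh)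
    have h16 : p ∣ 1 := (Nat.dvd_add_right (Dvd.dvd.mul_left h15 _)).1 hdv
    exact hp.one_lt.ne' (Nat.dvd_one.1 h16)

theorem exists_gap (V : Finset ℝ) : ∃ δ : ℝ, 0 < δ ∧ ∀ v ∈ V, v < δ → v ≤ 0 := by
  classical
  induction V using Finset.induction with
  | empty => exact ⟨1, one_pos, by simp⟩
  | insert a s _ ih =>
    obtain ⟨δ, hδ, h⟩ := ih
    rcases le_or_gt a 0 with ha | ha
    · refine ⟨δ, hδ, fun v hv hlt => ?_⟩
      rcases mem_insert.1 hv with rfl | hv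
      · exact ha
      · exact h v hv hlt
    · refine ⟨min δ a, lt_min hδ ha, fun v hv hlt => ?_⟩
      rcases mem_insert.1 hv with rfl | hv
      · exact absurd hlt (not_lt.2 (min_le_right _ _))
      · exact h v hv (lt_of_lt_of_le hlt (min_le_left _ _))

theorem exists_delta (k m : ℕ) [NeZero m] (g : ℕ → ZMod m → ℝ) :
    ∃ δ : ℝ, 0 < δ ∧ ∀ x : ℕ → ZMod m, ∑ i ∈ range k, g i (x i) < δ →
      ∑ i ∈ range k, g i (x i) ≤ 0 := by
  classical
  obtain ⟨δ, hδ, h⟩ := exists_gap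
    ((univ : Finset (Fin k → ZMod m)).image (fun x => ∑ i : Fin k, g i (x i)))
  refine ⟨δ, hδ, fun x hx => h _ ?_ hx⟩
  rw [mem_image]
  exact ⟨fun i => x i, mem_univ _, by rw [← Fin.sum_univ_eq_sum_range (fun i => g i (x i))]⟩

theorem exists_bound (k m : ℕ) [NeZero m] (g : ℕ → ZMod m → ℝ) :
    ∃ G : ℝ, ∀ i < k, ∀ x, |g i x| ≤ G := by
  refine ⟨∑ i ∈ range k, ∑ x : ZMod m, |g i x|, fun i hi x => ?_⟩
  calc |g i x| ≤ ∑ x : ZMod m, |g i x| :=
        single_le_sum (f := fun x : ZMod m => |g i x|) (fun _ _ => abs_nonneg _) (mem_univ x)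
    _ ≤ _ := single_le_sum (f := fun i => ∑ x : ZMod m, |g i x|)
        (fun _ _ => sum_nonneg fun _ _ => abs_nonneg _) (mem_range.2 hi)

theorem pow_cardFactors_le (Z n : ℕ) (hn : n ≠ 0) (h : ∀ q : ℕ, q.Prime → q ∣ n → Z < q) :
    Z ^ (ArithmeticFunction.cardFactors n) ≤ n := by
  rw [ArithmeticFunction.cardFactors_apply]
  calc Z ^ n.primeFactorsList.length ≤ n.primeFactorsList.prod := by
        refine List.pow_card_le_prod _ _ fun q hq => ?_
        exact (h q (Nat.prime_of_mem_primeFactorsList hq) (Nat.dvd_of_mem_primeFactorsList hq)).le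
    _ = n := Nat.prod_primeFactorsList hn

theorem cardFactors_le_self (n : ℕ) (hn : n ≠ 0) : ArithmeticFunction.cardFactors n ≤ n := by
  have h := pow_cardFactors_le 1 n hn (fun q hq _ => hq.one_lt)
  have h2 : 2 ^ (ArithmeticFunction.cardFactors n) ≤ n := by
    rw [ArithmeticFunction.cardFactors_apply]
    calc 2 ^ n.primeFactorsList.length ≤ n.primeFactorsList.prod := by
          refine List.pow_card_le_prod _ _ fun q hq => ?_
          exact (Nat.prime_of_mem_primeFactorsList hq).two_le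
      _ = n := Nat.prod_primeFactorsList hn
  exact (Nat.lt_two_pow_self).le.trans h2

end Pool.Agent.Lib.MP_39b545_nt.Half
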