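import Mathlib
import Pool.Agent.Lib.MP_39b545_nt.Half.Setup

/-!
Assembly: many chains of almost primes with prescribed averages of the number of prime factors.
-/

set_option autoImplicit false

namespace Pool.Agent.Lib.MP_39b545_nt.Half

open Finset

/-- the `i`-th term of the second-kind sequence starting at `x + 1` -/
def tm (x i : ℕ) : ℕ := 2 ^ i * x + 1

/-- the good values `x = n - 1` -/
def GoodX (k y m C N : ℕ) (g : ℕ → ZMod m → ℝ) (x : ℕ) : Prop :=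
  (∀ i < k, ArithmeticFunction.cardFactors (tm x i) ≤ C ∧
    ∀ p : ℕ, p.Prime → p ∣ tm x i → y < p ∧ (p ≤ C ∨ N ≤ p ^ C)) ∧
  (∃ p : ℕ, p.Prime ∧ p ≤ C ∧ p ∣ tm x k ∧ p < tm x k) ∧
  ∑ i ∈ range k, g i ((ArithmeticFunction.cardFactors (tm x i) : ℕ) : ZMod m) ≤ 0

/-- the counting set -/
noncomputable def GX (k y m C N : ℕ) (g : ℕ → ZMod m → ℝ) : Finset ℕ :=
  open Classical in (range N).filter (fun x => GoodX k y m C N g x)

theorem mem_GX {k y m C N : ℕ} {g : ℕ → ZMod m → ℝ} {x : ℕ} :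
    x ∈ GX k y m C N g ↔ x < N ∧ GoodX k y m C N g x := by
  classical
  unfold GX
  rw [mem_filter, mem_range]

/-- For every parameter `t` some point of the box works. -/
theorem box_all (k m : ℕ) [NeZero m] (g : ℕ → ZMod m → ℝ)
    (hg : ∀ i < k, ∑ x : ZMod m, g i x = 0) (h m0 : ℕ) (hm0 : m0 < h) :
    ∃ P : Finset ℕ, (∀ p ∈ P, p.Prime) ∧ ∀ t : ℕ, ∃ Q ⊆ P, ∃ B < ∏ p ∈ Q, p,
      ∑ i ∈ range k, g i ((ArithmeticFunction.cardFactors
        (tm (m0 + h * ((∏ p ∈ Q, p) * t + B)) i) : ℕ) : ZMod m) ≤ 0 := by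
  obtain ⟨δ, hδ, hgap⟩ := exists_delta k m g
  obtain ⟨G, hG⟩ := exists_bound k m g
  have hm : (0 : ℝ) < m := by exact_mod_cast Nat.pos_of_ne_zero (NeZero.ne m)
  have hη : 0 < (δ / (2 * m)) ^ 2 := by positivity
  obtain ⟨P, hP, hR⟩ := exists_primes (2 ^ k * h) (Nat.mul_pos (by positivity) (by omega))
    ((m : ℝ) + (k : ℝ) ^ 2 * m * G ^ 2 / (δ / (2 * m)) ^ 2)
  refine ⟨P, fun p hp => (hP p hp).1, fun t => ?_⟩
  have hbig : (k : ℝ) ^ 2 * m * G ^ 2 <
      (δ / (2 * m)) ^ 2 * (∑ p ∈ P, (1 / (p : ℝ)) - m) := by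
    have h1 : (k : ℝ) ^ 2 * m * G ^ 2 / (δ / (2 * m)) ^ 2 < ∑ p ∈ P, (1 / (p : ℝ)) - m := by
      linarith
    rw [div_lt_iff₀ hη] at h1
    linarith
  have hβ : ∀ i < k, 0 < 2 ^ i * m0 + 1 ∧ 2 ^ i * m0 + 1 ≤ 2 ^ i * h := by
    intro i _
    refine ⟨by positivity, ?_⟩
    have h1 : 1 ≤ 2 ^ i := Nat.one_le_two_pow
    calc 2 ^ i * m0 + 1 ≤ 2 ^ i * m0 + 2 ^ i := by omega
      _ = 2 ^ i * (m0 + 1) := by ring
      _ ≤ 2 ^ i * h := Nat.mul_le_mul_left _ hm0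
  have hPα : ∀ p ∈ P, p.Prime ∧ ∀ i < k, 2 ^ i * h ∣ p - 1 := by
    intro p hp
    obtain ⟨h1, h2⟩ := hP p hp
    refine ⟨h1, fun i hi => dvd_trans ?_ h2⟩
    exact Nat.mul_dvd_mul_right (pow_dvd_pow 2 hi.le) h
  have hL : ∀ p ∈ P, ∀ n : ℕ, 0 < n →
      ((ArithmeticFunction.cardFactors (p * n) : ℕ) : ZMod m) =
        ((ArithmeticFunction.cardFactors n : ℕ) : ZMod m) + 1 := by
    intro p hp n hn
    have hpp := (hP p hp).1
    rw [ArithmeticFunction.cardFactors_mul hpp.ne_zero hn.ne',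
      ArithmeticFunction.cardFactors_apply_prime hpp]
    push_cast
    ring
  obtain ⟨Q, hQ, B, hB, hs⟩ := exists_box (k := k) (m := m) (α := fun i => 2 ^ i * h)
    (β := fun i => 2 ^ i * m0 + 1) (g := g)
    (L := fun n => ((ArithmeticFunction.cardFactors n : ℕ) : ZMod m)) (t := t)
    hβ hg hG δ hδ hPα hbig hL
  refine ⟨Q, hQ, B, hB, hgap _ ?_⟩
  refine lt_of_le_of_lt (le_of_eq ?_) hs
  refine sum_congr rfl fun i _ => ?_
  have : tm (m0 + h * ((∏ p ∈ Q, p) * t + B)) i =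
      2 ^ i * h * ((∏ p ∈ Q, p) * t + B) + (2 ^ i * m0 + 1) := by
    unfold tm
    ring
  rw [this]

theorem pow_log_eventually (E K : ℕ) : ∀ᶠ N : ℕ in Filter.atTop,
    (K : ℝ) * (Real.log N) ^ E ≤ N := by
  have h1 : Filter.Tendsto (fun x : ℝ => Real.log x ^ E / x) Filter.atTop (nhds 0) := by
    have := Real.tendsto_pow_log_div_mul_add_atTop 1 0 E one_ne_zero
    simpa using this
  have h2 := (h1.comp tendsto_natCast_atTop_atTop (α := ℕ))
  have h3 := (Metric.tendsto_nhds.1 h2) (1 / ((K : ℝ) + 1)) (by positivity)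
  filter_upwards [h3, Filter.eventually_ge_atTop 1] with N hN hN1
  have hN0 : (0 : ℝ) < N := by exact_mod_cast hN1
  simp only [Function.comp, Real.dist_eq, sub_zero] at hN
  have h4 := (abs_lt.1 hN).2
  rw [div_lt_div_iff₀ hN0 (by positivity)] at h4
  have h5 : 0 ≤ Real.log N ^ E := pow_nonneg (Real.log_nonneg (by exact_mod_cast hN1)) _
  nlinarith

theorem count_GX (k y m : ℕ) [NeZero m] (g : ℕ → ZMod m → ℝ)
    (hg : ∀ i < k, ∑ x : ZMod m, g i x = 0) :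
    ∃ C : ℕ, ∀ N : ℕ, C ≤ N → (N : ℝ) / (Real.log N) ^ C ≤ ((GX k y m C N g).card : ℝ) := by
  classical
  obtain ⟨h, m0, r0, hm0, hr0, hr0h, hcls⟩ := residue_class k y
  obtain ⟨P, hPp, hbox⟩ := box_all k m g hg h m0 hm0
  obtain ⟨M, hM⟩ : ∃ M : ℕ, M = ∏ p ∈ P, p := ⟨_, rfl⟩
  have hQpos : ∀ Q ⊆ P, 0 < ∏ p ∈ Q, p := fun Q hQ => prod_pos fun q hq => (hPp q (hQ hq)).pos
  have hQle : ∀ Q ⊆ P, ∏ p ∈ Q, p ≤ M := by
    intro Q hQ
    rw [hM]
    exact prod_le_prod_of_subset_of_one_le' hQ fun i hi _ => (hPp i hi).one_lt.le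
  have hMpos : 0 < M := by rw [hM]; exact hQpos P (Subset.refl _)
  have hhpos : 0 < h := by omega
  -- the family of forms
  obtain ⟨J, hJ⟩ : ∃ J : Finset (ℕ × (Finset ℕ × ℕ)), J = range k ×ˢ (P.powerset ×ˢ range M) :=
    ⟨_, rfl⟩
  obtain ⟨c, hc⟩ : ∃ c : ℕ × (Finset ℕ × ℕ) → ℕ, c = fun j => 2 ^ j.1 * (m0 + h * j.2.2) + 1 :=
    ⟨_, rfl⟩
  have hcpos : ∀ j, 0 < c j := fun j => by rw [hc]; positivity
  obtain ⟨Pc, hPc⟩ : ∃ Pc : ℕ, Pc = ∏ j ∈ J, c j := ⟨_, rfl⟩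
  have hPcpos : 0 < Pc := by rw [hPc]; exact prod_pos fun j _ => hcpos j
  obtain ⟨D, hD⟩ : ∃ D : ℕ, D = J.card := ⟨_, rfl⟩
  obtain ⟨W, hW⟩ : ∃ W : ℕ, W = Pc * D.factorial := ⟨_, rfl⟩
  have hWpos : 0 < W := by rw [hW]; exact Nat.mul_pos hPcpos (Nat.factorial_pos _)
  have hcdvd : ∀ j ∈ J, c j ∣ Pc := fun j hj => by rw [hPc]; exact dvd_prod_of_mem c hj
  obtain ⟨a, ha⟩ : ∃ a : ℕ × (Finset ℕ × ℕ) → ℕ,
      a = fun j => 2 ^ j.1 * h * (∏ p ∈ j.2.1, p) * (Pc / c j * D.factorial) := ⟨_, rfl⟩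
  have hca : ∀ j ∈ J, ∀ s : ℕ, c j * (a j * s + 1) =
      tm (m0 + h * ((∏ p ∈ j.2.1, p) * (W * s) + j.2.2)) j.1 := by
    intro j hj s
    have h1 : c j * (Pc / c j) = Pc := Nat.mul_div_cancel' (hcdvd j hj)
    have h2 : c j * a j = 2 ^ j.1 * h * (∏ p ∈ j.2.1, p) * W := by
      rw [ha, hW]
      calc c j * (2 ^ j.1 * h * (∏ p ∈ j.2.1, p) * (Pc / c j * D.factorial)) =
          2 ^ j.1 * h * (∏ p ∈ j.2.1, p) * ((c j * (Pc / c j)) * D.factorial) := by ring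
        _ = _ := by rw [h1]
    calc c j * (a j * s + 1) = (c j * a j) * s + c j := by ring
      _ = 2 ^ j.1 * h * (∏ p ∈ j.2.1, p) * W * s + (2 ^ j.1 * (m0 + h * j.2.2) + 1) := by
          rw [h2, hc]
      _ = _ := by unfold tm; ring
  obtain ⟨S0, hS0⟩ := sieve_lin J a (by
    intro j _ q hq hqD
    rw [ha]
    have h1 : q ∣ D.factorial := by
      rw [hD]
      exact (Nat.Prime.dvd_factorial hq).2 hqD
    exact Dvd.dvd.mul_left (Dvd.dvd.mul_left h1 _) _)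
  rw [← hD] at hS0
  -- constants
  obtain ⟨K1, hK1⟩ : ∃ K1 : ℕ, K1 = h * M * W := ⟨_, rfl⟩
  obtain ⟨K0, hK0⟩ : ∃ K0 : ℕ, K0 = h + h * M := ⟨_, rfl⟩
  have hK1pos : 0 < K1 := by rw [hK1]; positivity
  obtain ⟨bx, hbx⟩ : ∃ bx : ℕ, bx = (P.powerset ×ˢ range M).card := ⟨_, rfl⟩
  obtain ⟨E, hE⟩ : ∃ E : ℕ, E = 16 * D + 14 := ⟨_, rfl⟩
  obtain ⟨cmax, hcmax⟩ : ∃ cmax : ℕ, ∀ j ∈ J, c j ≤ cmax :=
    ⟨J.sup c, fun j hj => le_sup hj⟩
  -- the eventual inequalities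
  obtain ⟨N1, hN1⟩ := Filter.eventually_atTop.1 (pow_log_eventually (2 * D + 1) (16 * K1))
  obtain ⟨N2, hN2⟩ := Filter.eventually_atTop.1 (Filter.Tendsto.eventually_ge_atTop
    (Real.tendsto_log_atTop.comp tendsto_natCast_atTop_atTop)
    (16 * (K1 : ℝ) * (bx + 1) + 1))
  refine ⟨2 * E + k + cmax + r0 + N1 + N2 + 4 * K0 + 4 * K1 * (S0 + 4 * K1 + 2) + 2 * D + 10,
    fun N hN => ?_⟩
  obtain ⟨C, hC⟩ : ∃ C : ℕ, C =
    2 * E + k + cmax + r0 + N1 + N2 + 4 * K0 + 4 * K1 * (S0 + 4 * K1 + 2) + 2 * D + 10 := ⟨_, rfl⟩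
  rw [← hC] at hN ⊢
  -- choice of S
  obtain ⟨S, hS⟩ : ∃ S : ℕ, S = (N - K0) / K1 := ⟨_, rfl⟩
  have hNbig : 4 * K1 * (S0 + 4 * K1 + 2) + 4 * K0 ≤ N := by omega
  have hS1 : K1 * S + K0 ≤ N := by
    have := Nat.div_mul_le_self (N - K0) K1
    rw [← hS] at this
    rw [mul_comm]
    omega
  have hS2 : N ≤ 4 * K1 * S := by
    have h1 : N - K0 < K1 * (S + 1) := by
      have := Nat.lt_mul_div_succ (N - K0) hK1pos
      rwa [← hS] at this
    have h2 : 4 * K1 * 2 ≤ 4 * K1 * (S0 + 4 * K1 + 2) := Nat.mul_le_mul_left _ (by omega)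
    have h3 : 2 * K1 ≤ N - K0 := by omega
    have h4 : K1 * (S + 1) = K1 * S + K1 := by ring
    have h5 : 4 * K1 * S = 4 * (K1 * S) := by ring
    omega
  have hS3 : S0 + 4 * K1 + 2 ≤ S := by
    have h1 : 4 * K1 * (S0 + 4 * K1 + 2) ≤ 4 * K1 * S := by omega
    exact Nat.le_of_mul_le_mul_left h1 (by omega)
  obtain ⟨Z, hZ2, hZS, hcount⟩ := hS0 S (by omega)
  rw [← hE] at hZS
  have hNZ : N ≤ Z ^ (2 * E) := by
    calc N ≤ 4 * K1 * S := hS2
      _ ≤ S * S := Nat.mul_le_mul_right _ (by omega)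
      _ ≤ Z ^ E * Z ^ E := Nat.mul_le_mul hZS hZS
      _ = Z ^ (2 * E) := by rw [← pow_add]; congr 1; ring
  -- the choice of the point of the box
  have hch : ∀ s : ℕ, ∃ QB : Finset ℕ × ℕ, QB ∈ P.powerset ×ˢ range M ∧
      ∑ i ∈ range k, g i ((ArithmeticFunction.cardFactors
        (tm (m0 + h * ((∏ p ∈ QB.1, p) * (W * s) + QB.2)) i) : ℕ) : ZMod m) ≤ 0 := by
    intro s
    obtain ⟨Q, hQ, B, hB, hs⟩ := hbox (W * s)
    refine ⟨(Q, B), ?_, hs⟩
    rw [mem_product, mem_powerset, mem_range]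
    exact ⟨hQ, lt_of_lt_of_le hB (hQle Q hQ)⟩
  choose QB hQB hQBs using hch
  obtain ⟨X, hX⟩ : ∃ X : (Finset ℕ × ℕ) → ℕ → ℕ,
      X = fun qb s => m0 + h * ((∏ p ∈ qb.1, p) * (W * s) + qb.2) := ⟨_, rfl⟩
  -- goodness
  have hgood : ∀ s ∈ (goodS J a Z S).erase 0, X (QB s) s ∈ GX k y m C N g := by
    intro s hs
    rw [mem_erase] at hs
    obtain ⟨hs0, hs⟩ := hs
    rw [mem_goodS] at hs
    obtain ⟨hsS, hsq⟩ := hs
    have hmem := hQB s
    have hmem' := hmem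
    rw [mem_product, mem_powerset, mem_range] at hmem'
    obtain ⟨hQP, hBM⟩ := hmem'
    have hXmod : X (QB s) s ≡ m0 [MOD h] := by
      rw [hX]
      show m0 + h * ((∏ p ∈ (QB s).1, p) * (W * s) + (QB s).2) ≡ m0 [MOD h]
      unfold Nat.ModEq
      rw [Nat.add_mul_mod_self_left]
    have hXlt : X (QB s) s < N := by
      rw [hX]
      show m0 + h * ((∏ p ∈ (QB s).1, p) * (W * s) + (QB s).2) < N
      have h1 : (∏ p ∈ (QB s).1, p) * (W * s) ≤ M * (W * S) :=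
        Nat.mul_le_mul (hQle _ hQP) (Nat.mul_le_mul_left _ hsS.le)
      have h2 : h * ((∏ p ∈ (QB s).1, p) * (W * s) + (QB s).2) ≤ h * (M * (W * S) + M) :=
        Nat.mul_le_mul_left _ (by omega)
      have h3 : h * (M * (W * S) + M) = K1 * S + h * M := by rw [hK1]; ring
      omega
    have hXr : r0 ≤ X (QB s) s := by
      rw [hX]
      show r0 ≤ m0 + h * ((∏ p ∈ (QB s).1, p) * (W * s) + (QB s).2)
      have h1 : 1 ≤ (∏ p ∈ (QB s).1, p) * (W * s) :=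
        Nat.mul_pos (hQpos _ hQP) (Nat.mul_pos hWpos (Nat.pos_of_ne_zero hs0))
      have h2 : h * 1 ≤ h * ((∏ p ∈ (QB s).1, p) * (W * s) + (QB s).2) :=
        Nat.mul_le_mul_left _ (by omega)
      omega
    obtain ⟨hy, hk⟩ := hcls _ hXmod
    rw [mem_GX]
    refine ⟨hXlt, ?_, ?_, ?_⟩
    · intro i hi
      have hjJ : (i, QB s) ∈ J := by
        rw [hJ, mem_product]
        exact ⟨mem_range.2 hi, hmem⟩
      have heq : c (i, QB s) * (a (i, QB s) * s + 1) = tm (X (QB s) s) i := by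
        rw [hca _ hjJ s, hX]
      have hq := hsq _ hjJ
      have hcj := hcmax _ hjJ
      have htm : tm (X (QB s) s) i ≤ 2 ^ k * N := by
        unfold tm
        have h1 : 2 ^ i * X (QB s) s + 1 ≤ 2 ^ i * N := by
          have h2 : 2 ^ i * (X (QB s) s + 1) ≤ 2 ^ i * N := Nat.mul_le_mul_left _ hXlt
          have h3 : 1 ≤ 2 ^ i := Nat.one_le_two_pow
          have h4 : 2 ^ i * (X (QB s) s + 1) = 2 ^ i * X (QB s) s + 2 ^ i := by ring
          omega
        exact h1.trans (Nat.mul_le_mul_right _ (Nat.pow_le_pow_right (by norm_num) hi.le))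
      constructor
      · rw [← heq, ArithmeticFunction.cardFactors_mul (hcpos _).ne' (by positivity)]
        have h1 := cardFactors_le_self (c (i, QB s)) (hcpos _).ne'
        have h2 := pow_cardFactors_le Z (a (i, QB s) * s + 1) (by positivity) hq
        have h3 : a (i, QB s) * s + 1 ≤ 2 ^ k * N := by
          calc a (i, QB s) * s + 1 = 1 * (a (i, QB s) * s + 1) := (one_mul _).symm
            _ ≤ c (i, QB s) * (a (i, QB s) * s + 1) := Nat.mul_le_mul_right _ (hcpos _)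
            _ ≤ 2 ^ k * N := by rw [heq]; exact htm
        have h4 : 2 ^ k * N ≤ Z ^ (k + 2 * E) := by
          rw [pow_add]
          exact Nat.mul_le_mul (Nat.pow_le_pow_left hZ2 k) hNZ
        have h5 : ArithmeticFunction.cardFactors (a (i, QB s) * s + 1) ≤ k + 2 * E :=
          (Nat.pow_le_pow_iff_right (by omega)).1 (h2.trans (h3.trans h4))
        omega
      · intro p hp hdv
        refine ⟨hy i hi p hp (by unfold tm at hdv; exact hdv), ?_⟩
        rw [← heq] at hdv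
        rcases (Nat.Prime.dvd_mul hp).1 hdv with h1 | h1
        · left
          have := Nat.le_of_dvd (hcpos _) h1
          omega
        · right
          have h2 := hq p hp h1
          calc N ≤ Z ^ (2 * E) := hNZ
            _ ≤ p ^ (2 * E) := Nat.pow_le_pow_left h2.le _
            _ ≤ p ^ C := Nat.pow_le_pow_right hp.pos (by omega)
    · refine ⟨r0, hr0, by omega, by unfold tm; exact hk, ?_⟩
      unfold tm
      have h1 : 1 * X (QB s) s ≤ 2 ^ k * X (QB s) s :=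
        Nat.mul_le_mul_right _ Nat.one_le_two_pow
      omega
    · rw [hX]
      exact hQBs s
  -- counting
  have hmap : ((goodS J a Z S).erase 0).card ≤ (GX k y m C N g).card * bx := by
    have h1 : ((goodS J a Z S).erase 0).card ≤
        ((GX k y m C N g) ×ˢ (P.powerset ×ˢ range M)).card := by
      refine card_le_card_of_injOn (fun s => (X (QB s) s, QB s)) ?_ ?_
      · intro s hs
        rw [mem_coe, mem_product]
        exact ⟨hgood s hs, hQB s⟩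
      · intro s _ s' _ hss
        have h2 : X (QB s) s = X (QB s') s' := congrArg Prod.fst hss
        have h3 : QB s = QB s' := congrArg Prod.snd hss
        rw [← h3] at h2
        have hmem' := hQB s
        rw [mem_product, mem_powerset, mem_range] at hmem'
        rw [hX] at h2
        have h4 : m0 + h * ((∏ p ∈ (QB s).1, p) * (W * s) + (QB s).2) =
            m0 + h * ((∏ p ∈ (QB s).1, p) * (W * s') + (QB s).2) := h2
        have h5 := Nat.add_left_cancel h4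
        have h6 := Nat.eq_of_mul_eq_mul_left hhpos h5
        have h7 := Nat.add_right_cancel h6
        have h8 := Nat.eq_of_mul_eq_mul_left (hQpos _ hmem'.1) h7
        exact Nat.eq_of_mul_eq_mul_left hWpos h8
    rw [card_product, ← hbx] at h1
    exact h1
  have hcard1 : (goodS J a Z S).card ≤ ((goodS J a Z S).erase 0).card + 1 := by
    have := pred_card_le_card_erase (s := goodS J a Z S) (a := 0)
    omega
  have hlogN := hN2 N (by omega)
  simp only [Function.comp] at hlogN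
  have hpow := hN1 N (by omega)
  have hN0 : (0 : ℝ) < N := by
    have : 0 < N := by omega
    exact_mod_cast this
  have hK1r : (1 : ℝ) ≤ K1 := by exact_mod_cast hK1pos
  have hbxr : (0 : ℝ) ≤ bx := Nat.cast_nonneg _
  have hlog1 : (1 : ℝ) ≤ Real.log N := by nlinarith
  obtain ⟨ℓ, hℓ⟩ : ∃ ℓ : ℝ, ℓ = Real.log N := ⟨_, rfl⟩
  rw [← hℓ] at hlogN hpow hlog1 ⊢
  have hSr : (0 : ℝ) < S := by
    have : 0 < S := by omega
    exact_mod_cast this
  have hlogS : Real.log S ≤ ℓ := by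
    rw [hℓ]
    refine Real.log_le_log hSr ?_
    have : S ≤ N := by nlinarith
    exact_mod_cast this
  have hlogS0 : 0 ≤ Real.log S := Real.log_nonneg (by
    have : 1 ≤ S := by omega
    exact_mod_cast this)
  have hL : (Real.log S) ^ (2 * D + 1) ≤ ℓ ^ (2 * D + 1) := pow_le_pow_left₀ hlogS0 hlogS _
  obtain ⟨Y, hY⟩ : ∃ Y : ℝ, Y = ℓ ^ (2 * D + 1) := ⟨_, rfl⟩
  have hYpos : 0 < Y := by rw [hY]; positivity
  rw [← hY] at hL hpow
  obtain ⟨g1, hg1⟩ : ∃ g1 : ℝ, g1 = ((GX k y m C N g).card : ℝ) := ⟨_, rfl⟩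
  rw [← hg1]
  have hmapr : ((goodS J a Z S).card : ℝ) ≤ g1 * bx + 1 := by
    have : (goodS J a Z S).card ≤ (GX k y m C N g).card * bx + 1 := by omega
    rw [hg1]
    exact_mod_cast this
  have hS2r : (N : ℝ) ≤ 4 * K1 * S := by exact_mod_cast hS2
  have hfin : (N : ℝ) ≤ 8 * K1 * Y * (g1 * bx + 1) := by
    calc (N : ℝ) ≤ 4 * K1 * S := hS2r
      _ ≤ 4 * K1 * (2 * (Real.log S) ^ (2 * D + 1) * ((goodS J a Z S).card : ℝ)) := by
          refine mul_le_mul_of_nonneg_left hcount (by positivity)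
      _ ≤ 4 * K1 * (2 * Y * (g1 * bx + 1)) := by
          refine mul_le_mul_of_nonneg_left ?_ (by positivity)
          refine mul_le_mul ?_ hmapr (Nat.cast_nonneg _) (by positivity)
          linarith
      _ = _ := by ring
  have hpow' : 16 * (K1 : ℝ) * Y ≤ N := by
    have := hpow
    push_cast at this
    exact this
  have hfin2 : (N : ℝ) ≤ 16 * K1 * Y * (g1 * bx) := by nlinarith
  have hg0 : 0 ≤ g1 := by rw [hg1]; exact Nat.cast_nonneg _
  have hfin3 : (N : ℝ) ≤ ℓ * Y * g1 := by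
    calc (N : ℝ) ≤ 16 * K1 * Y * (g1 * bx) := hfin2
      _ = (16 * K1 * bx) * (Y * g1) := by ring
      _ ≤ ℓ * (Y * g1) := by
          refine mul_le_mul_of_nonneg_right ?_ (by positivity)
          nlinarith
      _ = _ := by ring
  have hℓpow : ℓ * Y ≤ ℓ ^ C := by
    rw [hY, ← pow_succ']
    exact pow_le_pow_right₀ hlog1 (by omega)
  rw [div_le_iff₀ (by positivity)]
  calc (N : ℝ) ≤ ℓ * Y * g1 := hfin3
    _ ≤ ℓ ^ C * g1 := mul_le_mul_of_nonneg_right hℓpow hg0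
    _ = g1 * ℓ ^ C := mul_comm _ _

end Pool.Agent.Lib.MP_39b545_nt.Half
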